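import Mathlib
import Pool.Agent.N311.SH.Stm

/-!
# Homeomorphisms of the circle extended to the plane (project SH of helper311, part CIR)
-/

set_option autoImplicit false
open Set Metric Filter Topology

namespace Pool.Agent.N935.SH

open Pool.Agent.N311.SH

theorem lift_exists (s : C(Circle, Circle)) :
    ∃ h : C(ℝ, ℝ), ∀ x, Circle.exp (h x) = s (Circle.exp x) := by
  obtain ⟨F, ⟨-, hF⟩, -⟩ := Circle.isCoveringMap_exp.existsUnique_continuousMap_lifts
    (s.comp ⟨Circle.exp, Circle.exp.continuous⟩) 0 (Complex.arg (s 1))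
    (by simp [Circle.exp_arg])
  exact ⟨F, fun x => congrFun hF x⟩

theorem lift_unique (h h' : C(ℝ, ℝ)) (hh : ∀ x, Circle.exp (h x) = Circle.exp (h' x)) :
    ∃ m : ℤ, ∀ x, h x = h' x + m * (2 * Real.pi) := by
  obtain ⟨m, hm⟩ := Circle.exp_eq_exp.1 (hh 0)
  refine ⟨m, ?_⟩
  obtain ⟨F, hF, huniq⟩ := Circle.isCoveringMap_exp.existsUnique_continuousMap_lifts
    (⟨fun x => Circle.exp (h x), by fun_prop⟩ : C(ℝ, Circle)) 0 (h 0) rfl
  have h1 := huniq h ⟨rfl, rfl⟩
  have h2 := huniq ⟨fun x => h' x + m * (2 * Real.pi), by fun_prop⟩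
    ⟨hm.symm, funext fun x => (Circle.exp_eq_exp.2 ⟨m, rfl⟩).trans (hh x).symm⟩
  intro x
  exact DFunLike.congr_fun (h1.trans h2.symm) x

theorem deg_exists (s : C(Circle, Circle)) (h : C(ℝ, ℝ))
    (hh : ∀ x, Circle.exp (h x) = s (Circle.exp x)) :
    ∃ d : ℤ, ∀ (x : ℝ) (m : ℤ), h (x + m * (2 * Real.pi)) = h x + d * m * (2 * Real.pi) := by
  obtain ⟨d, hd⟩ := lift_unique ⟨fun x => h (x + 2 * Real.pi), by fun_prop⟩ h (fun x => by
    show Circle.exp (h (x + 2 * Real.pi)) = Circle.exp (h x)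
    rw [hh, hh, Circle.exp_add_two_pi])
  have hd' : ∀ x, h (x + 2 * Real.pi) = h x + d * (2 * Real.pi) := hd
  refine ⟨d, fun x m => ?_⟩
  have hp : Function.Periodic (fun x => h x - d * x) (2 * Real.pi) := by
    intro x
    show h (x + 2 * Real.pi) - d * (x + 2 * Real.pi) = h x - d * x
    rw [hd']
    ring
  have h1 : h (x + m * (2 * Real.pi)) - d * (x + m * (2 * Real.pi)) = h x - d * x :=
    hp.int_mul m x
  linarith

/-- the cut-off -/
noncomputable def tau (t : ℝ) : ℝ := min 1 (max 0 (2 * t - 1))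

theorem tau_cont : Continuous tau := by unfold tau; fun_prop

theorem tau_zero {t : ℝ} (ht : t ≤ 1 / 2) : tau t = 0 := by
  unfold tau
  rw [max_eq_left (by linarith)]
  exact min_eq_right zero_le_one

theorem tau_one : tau 1 = 1 := by
  unfold tau
  norm_num

theorem tau_nonneg (t : ℝ) : 0 ≤ tau t := le_min zero_le_one (le_max_left _ _)

theorem tau_le (t : ℝ) : tau t ≤ 1 := min_le_left _ _

section

variable (h : C(ℝ, ℝ))

/-- the displacement -/
noncomputable def kap (x : ℝ) : ℝ := h x - x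

variable {h}

theorem kap_cont : Continuous (kap h) := by unfold kap; fun_prop

theorem kap_per (hper : ∀ x, h (x + 2 * Real.pi) = h x + 2 * Real.pi) :
    Function.Periodic (kap h) (2 * Real.pi) := by
  intro x
  unfold kap
  rw [hper]
  ring

theorem kapA_cont (hper : ∀ x, h (x + 2 * Real.pi) = h x + 2 * Real.pi) :
    Continuous (fun θ : Real.Angle => (kap_per hper).lift θ) :=
  (kap_cont (h := h)).quotient_liftOn' _

variable (h)

/-- the extension -/
noncomputable def SS (z : ℂ) : ℂ :=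
  z * Complex.exp (((tau ‖z‖ * kap h z.arg : ℝ) : ℂ) * Complex.I)

variable {h}

theorem norm_SS (z : ℂ) : ‖SS h z‖ = ‖z‖ := by
  unfold SS
  rw [norm_mul, Complex.norm_exp_ofReal_mul_I, mul_one]

theorem SS_small {z : ℂ} (hz : ‖z‖ ≤ 1 / 2) : SS h z = z := by
  unfold SS
  rw [tau_zero hz]
  simp

theorem SS_cont (hper : ∀ x, h (x + 2 * Real.pi) = h x + 2 * Real.pi) : Continuous (SS h) := by
  rw [continuous_iff_continuousAt]
  intro z
  by_cases hz : ‖z‖ < 1 / 2
  · have h1 : (fun w : ℂ => w) =ᶠ[𝓝 z] SS h := by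
      have hopen : IsOpen {w : ℂ | ‖w‖ < 1 / 2} := isOpen_lt continuous_norm continuous_const
      filter_upwards [hopen.mem_nhds hz] with w hw
      exact (SS_small (le_of_lt hw)).symm
    exact continuousAt_id.congr h1
  · have hz0 : z ≠ 0 := by
      rintro rfl
      apply hz
      rw [norm_zero]
      norm_num
    have h1 : ContinuousAt (fun w : ℂ => kap h w.arg) z := by
      have h2 : ContinuousAt (fun w : ℂ => (kap_per hper).lift ((w.arg : ℝ) : Real.Angle)) z :=
        (kapA_cont hper).continuousAt.comp (Complex.continuousAt_arg_coe_angle hz0)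
      exact h2
    unfold SS
    refine continuousAt_id.mul (Complex.continuous_exp.continuousAt.comp
      (ContinuousAt.mul (Complex.continuous_ofReal.continuousAt.comp
        (ContinuousAt.mul ?_ h1)) continuousAt_const))
    exact (tau_cont.comp continuous_norm).continuousAt

/-- the lift of the circle map -/
noncomputable def HH (h : C(ℝ, ℝ)) (t x : ℝ) : ℝ := x + tau t * kap h x

theorem HH_cont (t : ℝ) : Continuous (HH h t) := by
  have := kap_cont (h := h)
  unfold HH; fun_prop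

theorem HH_mono (hm : StrictMono h) (t : ℝ) : StrictMono (HH h t) := by
  intro x y hxy
  have h1 := hm hxy
  have h2 := tau_nonneg t
  have h3 := tau_le t
  unfold HH kap
  rcases h3.eq_or_lt with h3 | h3
  · rw [h3]; linarith
  · nlinarith [mul_nonneg h2 (sub_nonneg.2 h1.le)]

theorem HH_per (hper : ∀ x, h (x + 2 * Real.pi) = h x + 2 * Real.pi) (t x : ℝ) (m : ℤ) :
    HH h t (x + m * (2 * Real.pi)) = HH h t x + m * (2 * Real.pi) := by
  unfold HH
  have : kap h (x + m * (2 * Real.pi)) = kap h x := (kap_per hper).int_mul m x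
  rw [this]
  ring

theorem SS_polar (hper : ∀ x, h (x + 2 * Real.pi) = h x + 2 * Real.pi) {t : ℝ} (ht : 0 < t)
    (x : ℝ) : SS h ((t : ℂ) * Circle.exp x) = (t : ℂ) * Circle.exp (HH h t x) := by
  have hn : ‖(t : ℂ) * (Circle.exp x : ℂ)‖ = t := by
    rw [norm_mul, Circle.norm_coe, mul_one, Complex.norm_real, Real.norm_of_nonneg ht.le]
  have harg : kap h ((t : ℂ) * (Circle.exp x : ℂ)).arg = kap h x := by
    rw [Complex.arg_real_mul _ ht]
    obtain ⟨m, hm⟩ := Circle.exp_eq_exp.1 (Circle.exp_arg (Circle.exp x))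
    rw [hm]
    exact (kap_per hper).int_mul m x
  unfold SS
  rw [hn, harg, mul_assoc]
  congr 1
  rw [Circle.coe_exp, Circle.coe_exp, ← Complex.exp_add]
  congr 1
  unfold HH
  push_cast
  ring

theorem exists_polar (z : ℂ) : ∃ x : ℝ, z = ((‖z‖ : ℝ) : ℂ) * Circle.exp x := by
  refine ⟨z.arg, ?_⟩
  rw [Circle.coe_exp]
  exact (Complex.norm_mul_exp_arg_mul_I z).symm

theorem SS_inj (hm : StrictMono h) (hper : ∀ x, h (x + 2 * Real.pi) = h x + 2 * Real.pi) :
    Function.Injective (SS h) := by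
  intro z w hzw
  have hn : ‖z‖ = ‖w‖ := by rw [← norm_SS (h := h) z, hzw, norm_SS]
  by_cases hz : z = 0
  · rw [hz, norm_zero] at hn
    rw [hz, norm_eq_zero.1 hn.symm]
  · have hw : w ≠ 0 := by
      rintro rfl
      rw [norm_zero, norm_eq_zero] at hn
      exact hz hn
    have ht : 0 < ‖z‖ := norm_pos_iff.2 hz
    obtain ⟨x, hx⟩ := exists_polar z
    obtain ⟨y, hy⟩ := exists_polar w
    rw [← hn] at hy
    rw [hx, hy, SS_polar hper ht, SS_polar hper ht] at hzw
    have h1 : Circle.exp (HH h ‖z‖ x) = Circle.exp (HH h ‖z‖ y) := by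
      apply Circle.coe_injective
      have : ((‖z‖ : ℝ) : ℂ) ≠ 0 := by exact_mod_cast ht.ne'
      exact mul_left_cancel₀ this hzw
    obtain ⟨m, hm'⟩ := Circle.exp_eq_exp.1 h1
    rw [← HH_per hper] at hm'
    have h2 := (HH_mono hm ‖z‖).injective hm'
    have h3 : Circle.exp x = Circle.exp y := Circle.exp_eq_exp.2 ⟨m, h2⟩
    rw [hx, hy, h3]

theorem SS_surj (hper : ∀ x, h (x + 2 * Real.pi) = h x + 2 * Real.pi) :
    Function.Surjective (SS h) := by
  intro w
  by_cases hw : w = 0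
  · exact ⟨0, by rw [hw]; unfold SS; rw [zero_mul]⟩
  · have ht : 0 < ‖w‖ := norm_pos_iff.2 hw
    obtain ⟨y, hy⟩ := exists_polar w
    have h1 : y ∈ Set.range (HH h ‖w‖) := by
      have hpi := Real.pi_pos
      apply mem_range_of_exists_le_of_exists_ge (HH_cont ‖w‖)
      · obtain ⟨m, hm⟩ := exists_int_gt ((HH h ‖w‖ 0 - y) / (2 * Real.pi))
        refine ⟨0 + ((-m : ℤ) : ℝ) * (2 * Real.pi), ?_⟩
        rw [HH_per hper]
        rw [div_lt_iff₀ (by positivity)] at hm
        push_cast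
        linarith
      · obtain ⟨m, hm⟩ := exists_int_gt ((y - HH h ‖w‖ 0) / (2 * Real.pi))
        refine ⟨0 + (m : ℝ) * (2 * Real.pi), ?_⟩
        rw [HH_per hper]
        rw [div_lt_iff₀ (by positivity)] at hm
        linarith
    obtain ⟨x, hx⟩ := h1
    exact ⟨((‖w‖ : ℝ) : ℂ) * Circle.exp x, by rw [SS_polar hper ht, hx, ← hy]⟩

theorem SS_closed (hper : ∀ x, h (x + 2 * Real.pi) = h x + 2 * Real.pi) :
    IsClosedMap (SS h) := by
  apply IsProperMap.isClosedMap
  rw [isProperMap_iff_tendsto_cocompact]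
  refine ⟨SS_cont hper, ?_⟩
  rw [← Metric.cobounded_eq_cocompact]
  rw [← tendsto_norm_atTop_iff_cobounded]
  have : (fun z => ‖SS h z‖) = fun z : ℂ => ‖z‖ := funext norm_SS
  rw [this]
  exact tendsto_norm_cobounded_atTop

theorem pos_case (s : Circle ≃ₜ Circle) (hh : ∀ x, Circle.exp (h x) = s (Circle.exp x))
    (hm : StrictMono h) (hper : ∀ x, h (x + 2 * Real.pi) = h x + 2 * Real.pi) :
    ∃ S : ℂ ≃ₜ ℂ, (∀ z, ‖S z‖ = ‖z‖) ∧ (∀ ζ : Circle, S (ζ : ℂ) = (s ζ : ℂ)) ∧
      ∀ z, ‖z‖ ≤ 1 / 2 → S z = z := by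
  let e : ℂ ≃ ℂ := Equiv.ofBijective (SS h) ⟨SS_inj hm hper, SS_surj hper⟩
  refine ⟨e.toHomeomorphOfContinuousClosed (SS_cont hper) (SS_closed hper), fun z => norm_SS z,
    fun ζ => ?_, fun z hz => SS_small hz⟩
  show SS h ζ = s ζ
  have h1 := SS_polar hper one_pos (Complex.arg ζ)
  rw [Circle.exp_arg, Complex.ofReal_one, one_mul, one_mul] at h1
  rw [h1]
  have h2 : HH h 1 (Complex.arg ζ) = h (Complex.arg ζ) := by
    unfold HH kap
    rw [tau_one]
    ring
  rw [h2, hh, Circle.exp_arg]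

end

theorem pos_case' {h : C(ℝ, ℝ)} (s : Circle ≃ₜ Circle)
    (hh : ∀ x, Circle.exp (h x) = s (Circle.exp x))
    (hinj : Function.Injective h) (hper : ∀ x, h (x + 2 * Real.pi) = h x + 2 * Real.pi) :
    ∃ S : ℂ ≃ₜ ℂ, (∀ z, ‖S z‖ = ‖z‖) ∧ (∀ ζ : Circle, S (ζ : ℂ) = (s ζ : ℂ)) ∧
      ∀ z, ‖z‖ ≤ 1 / 2 → S z = z := by
  have hpi := Real.pi_pos
  rcases h.continuous.strictMono_of_inj hinj with hm | hm
  · exact pos_case s hh hm hper
  · exfalso
    have h1 : h (0 + 2 * Real.pi) < h 0 := hm (by linarith)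
    rw [hper] at h1
    linarith

theorem cir : S_CIR := by
  intro s
  obtain ⟨h, hh⟩ := lift_exists ⟨s, s.continuous⟩
  obtain ⟨h', hh'⟩ := lift_exists ⟨s.symm, s.symm.continuous⟩
  obtain ⟨d, hd⟩ := deg_exists _ h hh
  obtain ⟨d', hd'⟩ := deg_exists _ h' hh'
  have hs : ∀ x, Circle.exp (h x) = s (Circle.exp x) := hh
  have hs' : ∀ x, Circle.exp (h' x) = s.symm (Circle.exp x) := hh'
  obtain ⟨m, hm⟩ := lift_unique ⟨fun x => h' (h x), by fun_prop⟩ (ContinuousMap.id ℝ) (fun x => by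
    show Circle.exp (h' (h x)) = Circle.exp x
    rw [hs', hs, Homeomorph.symm_apply_apply])
  have hm' : ∀ x, h' (h x) = x + m * (2 * Real.pi) := hm
  have hpi := Real.pi_pos
  have hdd : d' * d = 1 := by
    have e1 : h (0 + 2 * Real.pi) = h 0 + d * (2 * Real.pi) := by
      have := hd 0 1
      simpa using this
    have e2 : h' (h 0 + d * (2 * Real.pi)) = h' (h 0) + d' * d * (2 * Real.pi) := hd' (h 0) d
    have e3 := hm' (0 + 2 * Real.pi)
    rw [e1, e2, hm' 0] at e3
    have e4 : ((d' : ℝ) * d - 1) * (2 * Real.pi) = 0 := by linarith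
    have e5 : (d' : ℝ) * d - 1 = 0 := by
      rcases mul_eq_zero.1 e4 with h | h
      · exact h
      · exfalso; linarith
    have e6 : ((d' * d : ℤ) : ℝ) = ((1 : ℤ) : ℝ) := by push_cast; linarith
    exact_mod_cast e6
  have hinj : Function.Injective h := by
    intro x y hxy
    have h1 := hm' x
    have h2 := hm' y
    rw [hxy] at h1
    linarith
  rcases Int.mul_eq_one_iff_eq_one_or_neg_one.1 hdd with ⟨-, hd1⟩ | ⟨-, hd1⟩
  · obtain ⟨S, h1, h2, h3⟩ := pos_case' s hs hinj (fun x => by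
      have := hd x 1
      rw [hd1] at this
      simpa using this)
    exact ⟨S, h1, h2, false, h3⟩
  · obtain ⟨S, h1, h2, h3⟩ := pos_case' (h := ⟨fun x => h (-x), by fun_prop⟩)
      ((Homeomorph.inv Circle).trans s) (fun x => by
        show Circle.exp (h (-x)) = s (Circle.exp x)⁻¹
        rw [hs, Circle.exp_neg])
      (fun x y hxy => neg_injective (hinj hxy))
      (fun x => by
        show h (-(x + 2 * Real.pi)) = h (-x) + 2 * Real.pi
        have := hd (-x) (-1)
        rw [hd1] at this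
        have e : -(x + 2 * Real.pi) = -x + ((-1 : ℤ) : ℝ) * (2 * Real.pi) := by push_cast; ring
        rw [e, this]
        push_cast
        ring)
    refine ⟨(cjH true).trans S, fun z => ?_, fun ζ => ?_, true, fun z hz => ?_⟩
    · show ‖S (cj true z)‖ = ‖z‖
      rw [h1, norm_cj]
    · show S (cj true ζ) = s ζ
      have e : cj true (ζ : ℂ) = ((ζ⁻¹ : Circle) : ℂ) := by
        rw [cj_true, Circle.coe_inv_eq_conj]
      rw [e, h2]
      show ((s (ζ⁻¹)⁻¹ : Circle) : ℂ) = s ζ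
      rw [inv_inv]
    · show S (cj true z) = cj true z
      exact h3 _ (by rw [norm_cj]; exact hz)

end Pool.Agent.N935.SH
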